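import Pool.Agent.Y694.SM.Twist

/-!
# A topological group with a continuum of incompatible Lie group structures

The definitions `HasDirDeriv`, `IsCk`, `IsSmooth`, `LieStructure`, `SmoothMap`, `lieReal` (the real
line as a Lie group) are those of `Pool.Agent.Results.MP_ed087a_al.NotSmooth`; `C1Map` is in
`Pool/Agent/Y694/SM/Twist.lean`.

The group is the semidirect product `V ⋊ ℝ`, where `V` is the dense span of the sequences
`n^k (1 - e^(tn))` in the Frechet space of all real sequences and `s ∈ ℝ` acts as multiplication
by `e^(sn)`. The cocycle `c(t) = 1 - e^(tn)` is the coboundary of the constant sequence `1`, which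
is not in `V`; so for every real `a` the map `(v, t) ↦ (v + a c(t), t)` is an automorphism of the
topological group, but its derivative in the direction `(0, 1)` would be `-a n`, which is not in
`V` for `a ≠ 0`. The structure `L a` is the original one transported by this automorphism.
-/

set_option autoImplicit false

open Pool.Agent.Results.MP_ed087a_al.NotSmooth
open Pool.Agent.Y694.SM

namespace Pool.Agent.Results.MP_ed087a_al.ManySmoothStructures

/-- There are a metrizable locally convex space `E`, a topological group `G` homeomorphic to `E`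
and Lie group structures `L a` (`a ∈ ℝ`) modelled on `E` on this one topological group such that:
(i) for `a ≠ b` the identity map from `(G, L a)` to `(G, L b)` is not even `C^1`;
(ii) all `(G, L a)` are isomorphic as Lie groups (by automorphisms of the topological group);
(iii) every `(G, L a)` has an automorphism of the topological group (a homeomorphism) such that
neither it nor its inverse is `C^1`;
(iv) one continuous one-parameter group `ℝ → G` is smooth for `L 0` and not `C^1` for all `L a`,
`a ≠ 0`.
In particular not every continuous homomorphism between Lie groups is smooth. -/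
theorem result :
    (∃ (E : Type) (_ : AddCommGroup E) (_ : Module ℝ E) (_ : TopologicalSpace E)
      (_ : IsTopologicalAddGroup E) (_ : ContinuousSMul ℝ E) (_ : T2Space E)
      (_ : LocallyConvexSpace ℝ E) (_ : TopologicalSpace.MetrizableSpace E)
      (G : Type) (_ : Group G) (_ : TopologicalSpace G) (_ : IsTopologicalGroup G)
      (_ : T2Space G) (L : ℝ → LieStructure E G),
      Nonempty (G ≃ₜ E) ∧
      (∀ a b : ℝ, a ≠ b → ¬ C1Map (L a) (L b) (id : G → G)) ∧
      (∀ a b : ℝ, ∃ φ : G ≃ₜ* G, SmoothMap (L a) (L b) φ ∧ SmoothMap (L b) (L a) φ.symm) ∧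
      (∀ a : ℝ, ∃ ψ : G ≃ₜ* G, ¬ C1Map (L a) (L a) ψ ∧ ¬ C1Map (L a) (L a) ψ.symm) ∧
      ∃ γ : Multiplicative ℝ →* G, Continuous γ ∧ SmoothMap lieReal (L 0) γ ∧
        ∀ a : ℝ, a ≠ 0 → ¬ C1Map lieReal (L a) γ) ∧
    ¬ ∀ (E F : Type)
      [AddCommGroup E] [Module ℝ E] [TopologicalSpace E] [IsTopologicalAddGroup E]
      [ContinuousSMul ℝ E] [T2Space E] [LocallyConvexSpace ℝ E]
      [AddCommGroup F] [Module ℝ F] [TopologicalSpace F] [IsTopologicalAddGroup F]
      [ContinuousSMul ℝ F] [T2Space F] [LocallyConvexSpace ℝ F]
      (H G : Type)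
      [Group H] [TopologicalSpace H] [IsTopologicalGroup H] [T2Space H]
      [Group G] [TopologicalSpace G] [IsTopologicalGroup G] [T2Space G]
      (LH : LieStructure E H) (LG : LieStructure F G) (α : H →* G),
      Continuous α → SmoothMap LH LG α := by
  refine ⟨⟨V × ℝ, inferInstance, inferInstance, inferInstance, inferInstance, inferInstance,
    inferInstance, inferInstance, metrizable, Grp, inferInstance, inferInstance, inferInstance,
    inferInstance, lieTw, main⟩, ?_⟩
  intro h
  obtain ⟨ψ, hψ, -⟩ := main.2.2.2.1 0
  have h1 := h (V × ℝ) (V × ℝ) Grp Grp (lieTw 0) (lieTw 0) (ψ : Grp →* Grp)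
    ψ.continuous_toFun
  exact hψ ⟨h1.1, fun e he e' he' => h1.2 e he e' he' 1⟩

end Pool.Agent.Results.MP_ed087a_al.ManySmoothStructures
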